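import Mathlib

namespace Pool.Agent.NH72.Kn

open Polynomial Finset

/-- the polynomial `(1 - X)^j (1 + X)^(N - j)` -/
noncomputable def y (N j : ℕ) : ℚ[X] := (1 - X) ^ j * (1 + X) ^ (N - j)

/-- Krawtchouk numbers -/
noncomputable def Kr (N i j : ℕ) : ℚ := (y N j).coeff i

theorem natDegree_one_sub : (1 - X : ℚ[X]).natDegree ≤ 1 := by
  refine (natDegree_sub_le _ _).trans ?_
  simp

theorem natDegree_one_add : (1 + X : ℚ[X]).natDegree ≤ 1 := by
  refine (natDegree_add_le _ _).trans ?_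
  simp

theorem natDegree_ab (a b : ℕ) : ((1 - X) ^ a * (1 + X) ^ b : ℚ[X]).natDegree ≤ a + b := by
  refine natDegree_mul_le.trans ?_
  refine add_le_add ?_ ?_
  · refine natDegree_pow_le.trans ?_
    calc a * (1 - X : ℚ[X]).natDegree ≤ a * 1 := Nat.mul_le_mul_left _ natDegree_one_sub
      _ = _ := mul_one _
  · refine natDegree_pow_le.trans ?_
    calc b * (1 + X : ℚ[X]).natDegree ≤ b * 1 := Nat.mul_le_mul_left _ natDegree_one_add
      _ = _ := mul_one _

/-- homogenised evaluation -/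
noncomputable def Hm (n : ℕ) (P : ℚ[X]) : ℚ[X] :=
  ∑ j ∈ range (n + 1), C (P.coeff j) * ((1 - X) ^ j * (1 + X) ^ (n - j))

theorem Hm_succ (n : ℕ) (P : ℚ[X]) (hP : P.natDegree ≤ n) :
    Hm (n + 1) P = (1 + X) * Hm n P := by
  unfold Hm
  rw [sum_range_succ, coeff_eq_zero_of_natDegree_lt (by omega : P.natDegree < n + 1)]
  rw [C_0, zero_mul, add_zero, mul_sum]
  refine sum_congr rfl fun j hj => ?_
  rw [mem_range] at hj
  rw [show n + 1 - j = (n - j) + 1 from by omega]
  ring

theorem Hm_X_mul (n : ℕ) (P : ℚ[X]) :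
    Hm (n + 1) (X * P) = (1 - X) * Hm n P := by
  unfold Hm
  rw [sum_range_succ', coeff_X_mul_zero, C_0, zero_mul, add_zero, mul_sum]
  refine sum_congr rfl fun j hj => ?_
  rw [coeff_X_mul, Nat.add_sub_add_right]
  ring

theorem Hm_add (n : ℕ) (P Q : ℚ[X]) : Hm n (P + Q) = Hm n P + Hm n Q := by
  unfold Hm
  rw [← sum_add_distrib]
  refine sum_congr rfl fun j _ => ?_
  rw [coeff_add, C_add]; ring

theorem Hm_sub (n : ℕ) (P Q : ℚ[X]) : Hm n (P - Q) = Hm n P - Hm n Q := by
  unfold Hm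
  rw [← sum_sub_distrib]
  refine sum_congr rfl fun j _ => ?_
  rw [coeff_sub, C_sub]; ring

theorem Hm_ab (c s : ℕ) :
    Hm (c + s) ((1 - X) ^ c * (1 + X) ^ s) = C (2 ^ (c + s)) * X ^ c := by
  induction s with
  | zero =>
    induction c with
    | zero => simp [Hm]
    | succ c ih =>
      simp only [add_zero, pow_zero, mul_one] at ih ⊢
      have h : ((1 - X) ^ (c + 1) : ℚ[X]) = (1 - X) ^ c - X * (1 - X) ^ c := by ring
      have hd : ((1 - X) ^ c : ℚ[X]).natDegree ≤ c := by
        have := natDegree_ab c 0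
        simpa using this
      rw [h, Hm_sub, Hm_succ _ _ hd, Hm_X_mul, ih, ← sub_mul, pow_succ, C_mul]
      have : (C 2 : ℚ[X]) = 2 := rfl
      rw [this]
      ring
  | succ s ih =>
    have h : ((1 - X) ^ c * (1 + X) ^ (s + 1) : ℚ[X]) =
      (1 - X) ^ c * (1 + X) ^ s + X * ((1 - X) ^ c * (1 + X) ^ s) := by ring
    rw [← add_assoc, h, Hm_add, Hm_succ _ _ (natDegree_ab c s), Hm_X_mul, ih, ← add_mul,
      pow_succ _ (c + s), C_mul]
    have : (C 2 : ℚ[X]) = 2 := rfl
    rw [this]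
    ring

theorem Hm_y {n c : ℕ} (hc : c ≤ n) : Hm n (y n c) = C (2 ^ n) * X ^ c := by
  have := Hm_ab c (n - c)
  rwa [show c + (n - c) = n from by omega] at this

/-- orthogonality -/
theorem orth {n c : ℕ} (hc : c ≤ n) (a : ℕ) :
    ∑ j ∈ range (n + 1), Kr n a j * Kr n j c = if a = c then 2 ^ n else 0 := by
  have h := congrArg (fun P => coeff P a) (Hm_y hc)
  simp only [Hm, finsetSum_coeff, coeff_C_mul, coeff_X_pow] at h
  have e : ∀ j, Kr n a j * Kr n j c = (y n c).coeff j * ((1 - X) ^ j * (1 + X) ^ (n - j) : ℚ[X]).coeff a := by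
    intro j
    unfold Kr
    rw [mul_comm]; rfl
  rw [sum_congr rfl fun j _ => e j, h]
  split_ifs <;> simp

theorem y_comp {N j : ℕ} (hj : j ≤ N) : y N (N - j) = (y N j).comp (C (-1) * X) := by
  unfold y
  simp only [mul_comp, pow_comp, sub_comp, add_comp, one_comp, X_comp]
  rw [show N - (N - j) = j from by omega, C_neg, C_1]
  ring

theorem Kr_sym2 {N j : ℕ} (hj : j ≤ N) (i : ℕ) : Kr N i (N - j) = (-1) ^ i * Kr N i j := by
  unfold Kr
  rw [y_comp hj, comp_C_mul_X_coeff, mul_comm]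

theorem reflect_ab (a b : ℕ) : reflect (a + b) ((1 - X) ^ a * (1 + X) ^ b : ℚ[X]) =
    C ((-1) ^ a) * ((1 - X) ^ a * (1 + X) ^ b) := by
  induction b with
  | zero =>
    induction a with
    | zero => simp
    | succ a ih =>
      simp only [add_zero, pow_zero, mul_one] at ih ⊢
      rw [pow_succ, reflect_mul _ _ (F := a) (G := 1) (by simpa using natDegree_ab a 0)
        natDegree_one_sub, ih]
      have h1 : reflect 1 (1 - X : ℚ[X]) = X - 1 := by
        rw [reflect_sub, ← C_1, reflect_C, ← pow_one (X : ℚ[X]), reflect_monomial, revAt_le le_rfl]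
        simp
      rw [h1, pow_succ, C_mul]
      simp only [C_neg, C_1]
      ring
  | succ b ih =>
    rw [pow_succ, ← mul_assoc, ← add_assoc, reflect_mul _ _ (F := a + b) (G := 1) (natDegree_ab a b)
      natDegree_one_add, ih]
    have h1 : reflect 1 (1 + X : ℚ[X]) = 1 + X := by
      rw [reflect_add, ← C_1, reflect_C, ← pow_one (X : ℚ[X]), reflect_monomial, revAt_le le_rfl]
      simp [add_comm]
    rw [h1]
    ring

theorem Kr_sym1 {N i j : ℕ} (hi : i ≤ N) (hj : j ≤ N) : Kr N (N - i) j = (-1) ^ j * Kr N i j := by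
  have h := congrArg (fun P => coeff P i) (reflect_ab j (N - j))
  simp only [coeff_reflect, coeff_C_mul] at h
  rw [show j + (N - j) = N from by omega, revAt_le hi] at h
  exact h

/-- Pascal type relations -/
theorem Kr_add_right {N c : ℕ} (hc : c < N) (j : ℕ) :
    Kr N j c + Kr N j (c + 1) = 2 * Kr (N - 1) j c := by
  unfold Kr
  rw [← coeff_add]
  have : y N c + y N (c + 1) = C 2 * y (N - 1) c := by
    unfold y
    rw [show N - c = (N - 1 - c) + 1 from by omega, show N - (c + 1) = N - 1 - c from by omega]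
    have : (C 2 : ℚ[X]) = 2 := rfl
    rw [this]
    ring
  rw [this, coeff_C_mul]

theorem Kr_add_left {N j : ℕ} (hj : j < N) (a : ℕ) :
    Kr (N - 1) (a + 1) j + Kr (N - 1) a j = Kr N (a + 1) j := by
  unfold Kr
  have : y N j = y (N - 1) j + X * y (N - 1) j := by
    unfold y
    rw [show N - j = (N - 1 - j) + 1 from by omega]
    ring
  rw [this, coeff_add, coeff_X_mul]

theorem y_ode {N c : ℕ} (hc : c ≤ N) :
    (1 - X ^ 2) * derivative (y N c) = (C ((N : ℚ) - 2 * c) - C (N : ℚ) * X) * y N c := by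
  unfold y
  obtain ⟨s, rfl⟩ := Nat.exists_eq_add_of_le hc
  rw [show c + s - c = s from by omega]
  have h2 : (C 2 : ℚ[X]) = 2 := rfl
  rcases c with _ | c <;> rcases s with _ | s
  · simp
  · simp [derivative_pow, h2]
    ring
  · simp [derivative_pow, h2]
    ring
  · simp [derivative_pow, h2]
    ring

/-- three term recurrence in the first index -/
theorem rec2 {N c : ℕ} (hc : c ≤ N) (j : ℕ) :
    ((j : ℚ) + 2) * Kr N (j + 2) c + ((N : ℚ) - j) * Kr N j c = ((N : ℚ) - 2 * c) * Kr N (j + 1) c := by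
  have hde := y_ode hc
  have h := congrArg (fun P => coeff P (j + 1)) hde
  simp only [sub_mul, one_mul, coeff_sub, mul_assoc, coeff_C_mul, coeff_X_mul] at h
  rw [show (X ^ 2 * derivative (y N c)) = X * (X * derivative (y N c)) from by ring, coeff_X_mul,
    coeff_derivative] at h
  have h2 : (X * derivative (y N c)).coeff j = (y N c).coeff j * j := by
    cases j with
    | zero => simp
    | succ j => rw [coeff_X_mul, coeff_derivative]; push_cast; ring
  rw [h2] at h
  unfold Kr
  push_cast at h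
  linarith

theorem rec2_zero {N c : ℕ} (hc : c ≤ N) :
    Kr N 1 c = ((N : ℚ) - 2 * c) * Kr N 0 c := by
  have hde := y_ode hc
  have h := congrArg (fun P => coeff P 0) hde
  simp only [sub_mul, one_mul, coeff_sub, mul_assoc, coeff_C_mul, coeff_X_mul_zero, mul_zero,
    sub_zero] at h
  rw [show (X ^ 2 * derivative (y N c)) = X * (X * derivative (y N c)) from by ring,
    coeff_X_mul_zero, coeff_derivative] at h
  unfold Kr
  push_cast at h
  linarith

/-- three term recurrence in the second index -/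
theorem rec1 {N j : ℕ} (hj : j + 1 < N) (a : ℕ) :
    ((N : ℚ) - (j + 1)) * Kr N a (j + 2) + ((j : ℚ) + 1) * Kr N a j =
      ((N : ℚ) - 2 * a) * Kr N a (j + 1) := by
  have hde : C ((N : ℚ) - (j + 1)) * y N (j + 2) + C ((j : ℚ) + 1) * y N j =
      C (N : ℚ) * y N (j + 1) - C 2 * (X * derivative (y N (j + 1))) := by
    unfold y
    obtain ⟨s, rfl⟩ := Nat.exists_eq_add_of_lt hj
    rw [show j + 1 + s + 1 - (j + 2) = s from by omega,
      show j + 1 + s + 1 - (j + 1) = s + 1 from by omega,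
      show j + 1 + s + 1 - j = s + 2 from by omega]
    have : (C 2 : ℚ[X]) = 2 := rfl
    simp [derivative_pow, this]
    ring
  have h := congrArg (fun P => coeff P a) hde
  simp only [coeff_add, coeff_sub, coeff_C_mul] at h
  have h2 : (X * derivative (y N (j + 1))).coeff a = (y N (j + 1)).coeff a * a := by
    cases a with
    | zero => simp
    | succ j => rw [coeff_X_mul, coeff_derivative]; push_cast; ring
  rw [h2] at h
  unfold Kr
  linarith

theorem rec1_zero {N : ℕ} (hN : 0 < N) (a : ℕ) :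
    (N : ℚ) * Kr N a 1 = ((N : ℚ) - 2 * a) * Kr N a 0 := by
  have hde : C (N : ℚ) * y N 1 =
      C (N : ℚ) * y N 0 - C 2 * (X * derivative (y N 0)) := by
    unfold y
    obtain ⟨s, rfl⟩ := Nat.exists_eq_add_of_lt hN
    rw [show 0 + s + 1 - 1 = s from by omega,
      show 0 + s + 1 - 0 = s + 1 from by omega]
    have : (C 2 : ℚ[X]) = 2 := rfl
    simp [derivative_pow, this]
    ring
  have h := congrArg (fun P => coeff P a) hde
  simp only [coeff_sub, coeff_C_mul] at h
  have h2 : (X * derivative (y N 0)).coeff a = (y N 0).coeff a * a := by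
    cases a with
    | zero => simp
    | succ j => rw [coeff_X_mul, coeff_derivative]; push_cast; ring
  rw [h2] at h
  unfold Kr
  linarith

/-- Christoffel-Darboux summation -/
theorem cd {N c : ℕ} (hc : c ≤ N) (a J : ℕ) (hJ : J < N) :
    2 * ((c : ℚ) - a) * ∑ j ∈ range (J + 1), Kr N a j * Kr N j c =
      ((N : ℚ) - J) * Kr N a (J + 1) * Kr N J c - ((J : ℚ) + 1) * Kr N a J * Kr N (J + 1) c := by
  induction J with
  | zero =>
    have h1 := rec1_zero (by omega : 0 < N) a
    have h2 := rec2_zero hc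
    rw [sum_range_one]
    simp only [zero_add, Nat.cast_zero, sub_zero, one_mul]
    rw [h1, h2]
    ring
  | succ J ih =>
    have h1 := rec1 (by omega : J + 1 < N) a
    have h2 := rec2 hc J
    have h3 := ih (by omega)
    rw [sum_range_succ, mul_add, h3]
    push_cast
    have e1 : ((N : ℚ) - (J + 1)) * Kr N a (J + 1 + 1) =
      ((N : ℚ) - 2 * a) * Kr N a (J + 1) - ((J : ℚ) + 1) * Kr N a J := by
      linarith
    have e2 : ((J : ℚ) + 1 + 1) * Kr N (J + 1 + 1) c =
      ((N : ℚ) - 2 * c) * Kr N (J + 1) c - ((N : ℚ) - J) * Kr N J c := by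
      linarith
    calc _ = ((N : ℚ) - J) * Kr N a (J + 1) * Kr N J c - ((J : ℚ) + 1) * Kr N a J * Kr N (J + 1) c
          + 2 * ((c : ℚ) - a) * (Kr N a (J + 1) * Kr N (J + 1) c) := by ring
      _ = (((N : ℚ) - (J + 1)) * Kr N a (J + 1 + 1)) * Kr N (J + 1) c -
          Kr N a (J + 1) * (((J : ℚ) + 1 + 1) * Kr N (J + 1 + 1) c) := by
        rw [e1, e2]; ring
      _ = _ := by ring

/-- the central half sum -/
theorem half_cd (r : ℕ) :
    ∑ j ∈ range (r + 1), Kr (2 * r + 1) r j * Kr (2 * r + 1) j (r + 1) =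
      (r + 1) * (Kr (2 * r + 1) r r) ^ 2 := by
  have h := cd (N := 2 * r + 1) (c := r + 1) (by omega) r r (by omega)
  have g1 : Kr (2 * r + 1) r (r + 1) = (-1) ^ r * Kr (2 * r + 1) r r := by
    have := Kr_sym2 (N := 2 * r + 1) (j := r) (by omega) r
    rwa [show 2 * r + 1 - r = r + 1 from by omega] at this
  have g2 : Kr (2 * r + 1) (r + 1) (r + 1) = (-1) ^ (r + 1) * Kr (2 * r + 1) r (r + 1) := by
    have := Kr_sym1 (N := 2 * r + 1) (i := r) (j := r + 1) (by omega) (by omega)
    rwa [show 2 * r + 1 - r = r + 1 from by omega] at this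
  rw [g2, g1] at h
  have hs : ((-1 : ℚ) ^ r) ^ 2 = 1 := by
    rw [← pow_mul, mul_comm, pow_mul]; norm_num
  push_cast at h
  have e1 : ((-1 : ℚ) ^ (r + 1)) = -(-1) ^ r := by rw [pow_succ]; ring
  rw [e1] at h
  have h2 : 2 * ∑ j ∈ range (r + 1), Kr (2 * r + 1) r j * Kr (2 * r + 1) j (r + 1) =
      (r + 1) * (1 + ((-1) ^ r) ^ 2) * (Kr (2 * r + 1) r r) ^ 2 := by
    have h4 : ((-1 : ℚ) ^ r) ^ 2 * Kr (2 * r + 1) r r ^ 2 = Kr (2 * r + 1) r r ^ 2 := by
      rw [hs, one_mul]
    linear_combination h + (r + 1) * h4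
  rw [hs] at h2
  linarith

/-- half of a symmetric sum, even number of terms -/
theorem half_sum_odd (t : ℕ → ℚ) (r : ℕ) (ht : ∀ j ≤ 2 * r + 1, t (2 * r + 1 - j) = t j) :
    2 * ∑ j ∈ range (r + 1), t j = ∑ j ∈ range (2 * r + 2), t j := by
  rw [← sum_range_add_sum_Ico t (by omega : r + 1 ≤ 2 * r + 2)]
  have : ∑ j ∈ Ico (r + 1) (2 * r + 2), t j = ∑ j ∈ range (r + 1), t j := by
    have h := Finset.sum_Ico_reflect t 0 (m := r + 1) (n := 2 * r + 1) (by omega)
    rw [show 2 * r + 1 + 1 - (r + 1) = r + 1 from by omega,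
      show 2 * r + 1 + 1 - 0 = 2 * r + 2 from by omega] at h
    rw [← h, Finset.range_eq_Ico]
    refine sum_congr rfl fun j hj => ?_
    rw [mem_Ico] at hj
    exact ht j (by omega)
  rw [this]; ring

/-- half of a symmetric sum, odd number of terms -/
theorem half_sum_even (t : ℕ → ℚ) (m : ℕ) (ht : ∀ j ≤ 2 * m, t (2 * m - j) = t j) :
    2 * ∑ j ∈ range m, t j + t m = ∑ j ∈ range (2 * m + 1), t j := by
  rw [← sum_range_add_sum_Ico t (by omega : m + 1 ≤ 2 * m + 1), sum_range_succ]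
  have : ∑ j ∈ Ico (m + 1) (2 * m + 1), t j = ∑ j ∈ range m, t j := by
    have h := Finset.sum_Ico_reflect t 0 (m := m) (n := 2 * m) (by omega)
    rw [show 2 * m + 1 - m = m + 1 from by omega,
      show 2 * m + 1 - 0 = 2 * m + 1 from by omega] at h
    rw [← h, Finset.range_eq_Ico]
    refine sum_congr rfl fun j hj => ?_
    rw [mem_Ico] at hj
    exact ht j (by omega)
  rw [this]; ring

end Pool.Agent.NH72.Kn
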