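import Pool.Agent.NH72.Kn.Alg

namespace Pool.Agent.NH72.Kn

open Polynomial Finset

/-- `c k = binom(2k,k) / 4^k` -/
noncomputable def cb (k : ℕ) : ℚ := (Nat.centralBinom k : ℚ) / 4 ^ k

theorem coeff_one_sub_pow (r k : ℕ) : ((1 - X : ℚ[X]) ^ r).coeff k = (-1) ^ k * (r.choose k : ℚ) := by
  have : ((1 - X : ℚ[X]) ^ r) = ((1 + X) ^ r).comp (C (-1) * X) := by
    simp only [pow_comp, add_comp, one_comp, X_comp, C_neg, C_1]
    congr 1; ring
  rw [this, comp_C_mul_X_coeff, coeff_one_add_X_pow, mul_comm]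

theorem sq_eq_expand (r : ℕ) : ((1 - X ^ 2 : ℚ[X]) ^ r) = expand ℚ 2 ((1 - X) ^ r) := by
  simp [expand_X]

theorem coeff_sq_even (r k : ℕ) : ((1 - X ^ 2 : ℚ[X]) ^ r).coeff (2 * k) = (-1) ^ k * (r.choose k : ℚ) := by
  rw [sq_eq_expand, mul_comm, coeff_expand_mul (by norm_num), coeff_one_sub_pow]

theorem coeff_sq_odd (r k : ℕ) : ((1 - X ^ 2 : ℚ[X]) ^ r).coeff (2 * k + 1) = 0 := by
  rw [sq_eq_expand, coeff_expand (by norm_num), if_neg (by omega)]

theorem y_mid (m : ℕ) : y (2 * m) m = (1 - X ^ 2) ^ m := by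
  unfold y
  rw [show 2 * m - m = m from by omega, ← mul_pow]
  congr 1; ring

theorem y_mid_odd (r : ℕ) : y (2 * r + 1) r = (1 - X ^ 2) ^ r + X * (1 - X ^ 2) ^ r := by
  unfold y
  rw [show 2 * r + 1 - r = r + 1 from by omega, pow_succ, ← mul_assoc, ← mul_pow]
  have : ((1 - X) * (1 + X) : ℚ[X]) = 1 - X ^ 2 := by ring
  rw [this]; ring

theorem neg_one_sq (k : ℕ) : ((-1 : ℚ) ^ k) ^ 2 = 1 := by
  rw [← pow_mul, mul_comm, pow_mul]; norm_num

/-- the square of the middle Krawtchouk number, even order -/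
theorem mid_even (k : ℕ) : (Kr (2 * (2 * k)) (2 * k) (2 * k)) ^ 2 / 4 ^ (2 * k) = cb k ^ 2 := by
  unfold Kr
  rw [y_mid, coeff_sq_even, mul_pow, neg_one_sq, one_mul, cb, Nat.centralBinom, div_pow, ← pow_mul,
    mul_comm 2 k]

theorem mid_odd (k : ℕ) : Kr (2 * (2 * k + 1)) (2 * k + 1) (2 * k + 1) = 0 := by
  unfold Kr
  rw [y_mid, coeff_sq_odd]

theorem qmid_even (k : ℕ) : (Kr (2 * (2 * k) + 1) (2 * k) (2 * k)) ^ 2 / 2 ^ (2 * (2 * k) + 1) =
    cb k ^ 2 / 2 := by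
  unfold Kr
  have h : (y (2 * (2 * k) + 1) (2 * k)).coeff (2 * k) = (-1) ^ k * ((2 * k).choose k : ℚ) := by
    rw [y_mid_odd, coeff_add, coeff_sq_even]
    cases k with
    | zero => simp
    | succ k =>
      rw [show 2 * (k + 1) = (2 * k + 1) + 1 from by ring, coeff_X_mul, coeff_sq_odd, add_zero]
  have h3 : (2 : ℚ) ^ (2 * (2 * k) + 1) = 4 ^ (k * 2) * 2 := by
    rw [pow_succ, pow_mul 2 2 (2 * k), mul_comm 2 k]; norm_num
  rw [h, mul_pow, neg_one_sq, one_mul, cb, Nat.centralBinom, div_pow, ← pow_mul, h3, div_div]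

theorem choose_half (k : ℕ) : 2 * ((2 * k + 1).choose k : ℚ) = ((2 * (k + 1)).choose (k + 1) : ℚ) := by
  have h1 : (2 * (k + 1)).choose (k + 1) = (2 * k + 1).choose k + (2 * k + 1).choose (k + 1) := by
    rw [show 2 * (k + 1) = (2 * k + 1) + 1 from by ring, Nat.choose_succ_succ]
  have h2 : (2 * k + 1).choose (k + 1) = (2 * k + 1).choose k := by
    rw [← Nat.choose_symm (by omega : k + 1 ≤ 2 * k + 1)]
    congr 1; omega
  rw [h1, h2]; push_cast; ring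

theorem qmid_odd (k : ℕ) :
    (Kr (2 * (2 * k + 1) + 1) (2 * k + 1) (2 * k + 1)) ^ 2 / 2 ^ (2 * (2 * k + 1) + 1) =
    cb (k + 1) ^ 2 / 2 := by
  unfold Kr
  have h : (y (2 * (2 * k + 1) + 1) (2 * k + 1)).coeff (2 * k + 1) =
      (-1) ^ k * ((2 * k + 1).choose k : ℚ) := by
    rw [y_mid_odd, coeff_add, coeff_sq_odd, coeff_X_mul, coeff_sq_even, zero_add]
  have h2 : ((2 * k + 1).choose k : ℚ) = (Nat.centralBinom (k + 1) : ℚ) / 2 := by
    rw [Nat.centralBinom, ← choose_half]; ring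
  rw [h, mul_pow, neg_one_sq, one_mul, cb, h2, div_pow, div_pow, ← pow_mul]
  rw [show 2 * (2 * k + 1) + 1 = 1 + 2 * ((k + 1) * 2 - 1) from by omega, pow_add, pow_mul 2 2]
  have : (4 : ℚ) ^ ((k + 1) * 2) = 4 * 4 ^ ((k + 1) * 2 - 1) := by
    rw [← pow_succ']; congr 1
  rw [this]
  norm_num
  field_simp

/-- entries of the inverse Kasteleyn matrix -/
noncomputable def S (n m a c : ℕ) : ℚ := (∑ j ∈ range (n - m), Kr (n - 1) a j * Kr n j c) / 2 ^ n

theorem S_add_c {n m a c : ℕ} (hc : c < n) :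
    S n m a c + S n m a (c + 1) =
      (∑ j ∈ range (n - m), Kr (n - 1) a j * Kr (n - 1) j c) / 2 ^ (n - 1) := by
  obtain ⟨n, rfl⟩ : ∃ k, n = k + 1 := ⟨n - 1, by omega⟩
  unfold S
  rw [← add_div, ← sum_add_distrib, pow_succ, ← div_div, Nat.add_sub_cancel]
  rw [div_div, mul_comm (2 ^ n) (2 : ℚ), ← div_div]
  congr 1
  rw [eq_comm, eq_div_iff (by norm_num), sum_mul]
  refine sum_congr rfl fun j _ => ?_
  have := Kr_add_right hc j
  rw [Nat.add_sub_cancel] at this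
  rw [← mul_add, this]; ring

theorem S_add_a {n m a c : ℕ} (hm : 0 < m) :
    S n m (a + 1) c + S n m a c =
      (∑ j ∈ range (n - m), Kr n (a + 1) j * Kr n j c) / 2 ^ n := by
  unfold S
  rw [← add_div, ← sum_add_distrib]
  congr 1
  refine sum_congr rfl fun j hj => ?_
  rw [mem_range] at hj
  rw [← Kr_add_left (by omega : j < n)]
  ring

section even

variable (m : ℕ)

/-- `n = 2 (m + 1)` -/
theorem even_eq : S (2 * (m + 1)) (m + 1) (m + 1) (m + 1) = S (2 * (m + 1)) (m + 1) m (m + 1) := by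
  unfold S
  congr 1
  refine sum_congr rfl fun j hj => ?_
  rw [mem_range] at hj
  rcases Nat.even_or_odd j with he | ho
  · congr 1
    have := Kr_sym1 (N := 2 * (m + 1) - 1) (i := m) (j := j) (by omega) (by omega)
    rw [he.neg_one_pow, one_mul, show 2 * (m + 1) - 1 - m = m + 1 from by omega] at this
    exact this
  · have := Kr_sym2 (N := 2 * (m + 1)) (j := m + 1) (by omega) j
    rw [ho.neg_one_pow, show 2 * (m + 1) - (m + 1) = m + 1 from by omega] at this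
    have h0 : Kr (2 * (m + 1)) j (m + 1) = 0 := by linarith
    rw [h0]; ring

theorem even_half : S (2 * (m + 1)) (m + 1) (m + 1) (m + 1) + S (2 * (m + 1)) (m + 1) (m + 1) (m + 2) =
    1 / 2 := by
  rw [S_add_c (by omega)]
  rw [show 2 * (m + 1) - (m + 1) = m + 1 from by omega, show 2 * (m + 1) - 1 = 2 * m + 1 from by omega]
  have h1 := half_sum_odd (fun j => Kr (2 * m + 1) (m + 1) j * Kr (2 * m + 1) j (m + 1)) m (by
    intro j hj
    show Kr (2 * m + 1) (m + 1) (2 * m + 1 - j) * Kr (2 * m + 1) (2 * m + 1 - j) (m + 1) =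
      Kr (2 * m + 1) (m + 1) j * Kr (2 * m + 1) j (m + 1)
    rw [Kr_sym2 hj, Kr_sym1 hj (by omega)]
    have := neg_one_sq (m + 1)
    calc _ = ((-1 : ℚ) ^ (m + 1)) ^ 2 * (Kr (2 * m + 1) (m + 1) j * Kr (2 * m + 1) j (m + 1)) := by ring
      _ = _ := by rw [this, one_mul])
  have h2 := orth (n := 2 * m + 1) (c := m + 1) (by omega) (m + 1)
  rw [if_pos rfl] at h2
  rw [show 2 * m + 2 = 2 * m + 1 + 1 from rfl, h2] at h1
  rw [div_eq_iff (by positivity)]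
  linarith

theorem even_full : S (2 * (m + 1)) (m + 1) (m + 1) (m + 1) + S (2 * (m + 1)) (m + 1) m (m + 1) =
    (1 - (Kr (2 * (m + 1)) (m + 1) (m + 1)) ^ 2 / 4 ^ (m + 1)) / 2 := by
  rw [S_add_a (by omega)]
  rw [show 2 * (m + 1) - (m + 1) = m + 1 from by omega]
  have h1 := half_sum_even (fun j => Kr (2 * (m + 1)) (m + 1) j * Kr (2 * (m + 1)) j (m + 1)) (m + 1) (by
    intro j hj
    show Kr (2 * (m + 1)) (m + 1) (2 * (m + 1) - j) * Kr (2 * (m + 1)) (2 * (m + 1) - j) (m + 1) =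
      Kr (2 * (m + 1)) (m + 1) j * Kr (2 * (m + 1)) j (m + 1)
    rw [Kr_sym2 hj, Kr_sym1 hj (by omega)]
    have := neg_one_sq (m + 1)
    calc _ = ((-1 : ℚ) ^ (m + 1)) ^ 2 *
        (Kr (2 * (m + 1)) (m + 1) j * Kr (2 * (m + 1)) j (m + 1)) := by ring
      _ = _ := by rw [this, one_mul])
  have h2 := orth (n := 2 * (m + 1)) (c := m + 1) (by omega) (m + 1)
  rw [if_pos rfl] at h2
  rw [h2] at h1
  have h3 : (4 : ℚ) ^ (m + 1) = 2 ^ (2 * (m + 1)) := by rw [pow_mul]; norm_num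
  rw [h3, div_eq_iff (by positivity)]
  have h4 : (0 : ℚ) < 2 ^ (2 * (m + 1)) := by positivity
  field_simp
  linarith

theorem even_q : S (2 * (m + 1)) (m + 1) m (m + 1) + S (2 * (m + 1)) (m + 1) m (m + 2) =
    (m + 1) * ((Kr (2 * m + 1) m m) ^ 2 / 2 ^ (2 * m + 1)) := by
  rw [S_add_c (by omega)]
  rw [show 2 * (m + 1) - (m + 1) = m + 1 from by omega, show 2 * (m + 1) - 1 = 2 * m + 1 from by omega,
    half_cd]
  ring

/-- the central quantity, even order -/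
theorem even_main :
    S (2 * (m + 1)) (m + 1) m (m + 2) * (1 - 2 * S (2 * (m + 1)) (m + 1) (m + 1) (m + 1)) +
      2 * (S (2 * (m + 1)) (m + 1) m (m + 1) * S (2 * (m + 1)) (m + 1) (m + 1) (m + 2)) =
    (1 + (Kr (2 * (m + 1)) (m + 1) (m + 1)) ^ 2 / 4 ^ (m + 1)) / 2 *
      ((m + 1) * ((Kr (2 * m + 1) m m) ^ 2 / 2 ^ (2 * m + 1))) := by
  have h1 := even_eq m
  have h2 := even_half m
  have h3 := even_full m
  have h4 := even_q m
  set A := S (2 * (m + 1)) (m + 1) (m + 1) (m + 1)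
  set B := S (2 * (m + 1)) (m + 1) m (m + 1)
  set D := S (2 * (m + 1)) (m + 1) (m + 1) (m + 2)
  set E := S (2 * (m + 1)) (m + 1) m (m + 2)
  set c2 := (Kr (2 * (m + 1)) (m + 1) (m + 1)) ^ 2 / 4 ^ (m + 1)
  set q := ((m : ℚ) + 1) * ((Kr (2 * m + 1) m m) ^ 2 / 2 ^ (2 * m + 1))
  have hA : A = (1 - c2) / 4 := by linarith
  have hB : B = (1 - c2) / 4 := by linarith
  have hD : D = (1 + c2) / 4 := by linarith
  have hE : E = q - (1 - c2) / 4 := by linarith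
  rw [hA, hB, hD, hE]
  ring

end even

section odd

variable (m : ℕ)

/-- `n = 2 (m + 1) + 1` -/
theorem odd_eq : S (2 * (m + 1) + 1) (m + 1) (m + 1) (m + 1) =
    S (2 * (m + 1) + 1) (m + 1) (m + 1) (m + 2) := by
  unfold S
  congr 1
  refine sum_congr rfl fun j hj => ?_
  rw [mem_range] at hj
  rcases Nat.even_or_odd j with he | ho
  · congr 1
    have := Kr_sym2 (N := 2 * (m + 1) + 1) (j := m + 1) (by omega) j
    rw [he.neg_one_pow, one_mul, show 2 * (m + 1) + 1 - (m + 1) = m + 2 from by omega] at this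
    exact this.symm
  · have := Kr_sym1 (N := 2 * (m + 1)) (i := m + 1) (j := j) (by omega) (by omega)
    rw [ho.neg_one_pow, show 2 * (m + 1) - (m + 1) = m + 1 from by omega] at this
    have h0 : Kr (2 * (m + 1)) (m + 1) j = 0 := by linarith
    rw [show 2 * (m + 1) + 1 - 1 = 2 * (m + 1) from by omega, h0]; ring

theorem odd_half : S (2 * (m + 1) + 1) (m + 1) (m + 1) (m + 1) +
    S (2 * (m + 1) + 1) (m + 1) m (m + 1) = 1 / 2 := by
  rw [S_add_a (by omega)]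
  rw [show 2 * (m + 1) + 1 - (m + 1) = (m + 1) + 1 from by omega]
  have h1 := half_sum_odd (fun j => Kr (2 * (m + 1) + 1) (m + 1) j *
    Kr (2 * (m + 1) + 1) j (m + 1)) (m + 1) (by
    intro j hj
    show Kr (2 * (m + 1) + 1) (m + 1) (2 * (m + 1) + 1 - j) *
      Kr (2 * (m + 1) + 1) (2 * (m + 1) + 1 - j) (m + 1) =
      Kr (2 * (m + 1) + 1) (m + 1) j * Kr (2 * (m + 1) + 1) j (m + 1)
    rw [Kr_sym2 hj, Kr_sym1 hj (by omega)]
    have := neg_one_sq (m + 1)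
    calc _ = ((-1 : ℚ) ^ (m + 1)) ^ 2 *
        (Kr (2 * (m + 1) + 1) (m + 1) j * Kr (2 * (m + 1) + 1) j (m + 1)) := by ring
      _ = _ := by rw [this, one_mul])
  have h2 := orth (n := 2 * (m + 1) + 1) (c := m + 1) (by omega) (m + 1)
  rw [if_pos rfl] at h2
  rw [show 2 * (m + 1) + 2 = 2 * (m + 1) + 1 + 1 from rfl, h2] at h1
  rw [div_eq_iff (by positivity)]
  linarith

theorem odd_full : S (2 * (m + 1) + 1) (m + 1) (m + 1) (m + 1) +
    S (2 * (m + 1) + 1) (m + 1) (m + 1) (m + 2) =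
    (1 + (Kr (2 * (m + 1)) (m + 1) (m + 1)) ^ 2 / 4 ^ (m + 1)) / 2 := by
  rw [S_add_c (by omega)]
  rw [show 2 * (m + 1) + 1 - (m + 1) = m + 1 + 1 from by omega, Nat.add_sub_cancel]
  have h1 := half_sum_even (fun j => Kr (2 * (m + 1)) (m + 1) j * Kr (2 * (m + 1)) j (m + 1)) (m + 1) (by
    intro j hj
    show Kr (2 * (m + 1)) (m + 1) (2 * (m + 1) - j) * Kr (2 * (m + 1)) (2 * (m + 1) - j) (m + 1) =
      Kr (2 * (m + 1)) (m + 1) j * Kr (2 * (m + 1)) j (m + 1)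
    rw [Kr_sym2 hj, Kr_sym1 hj (by omega)]
    have := neg_one_sq (m + 1)
    calc _ = ((-1 : ℚ) ^ (m + 1)) ^ 2 *
        (Kr (2 * (m + 1)) (m + 1) j * Kr (2 * (m + 1)) j (m + 1)) := by ring
      _ = _ := by rw [this, one_mul])
  have h2 := orth (n := 2 * (m + 1)) (c := m + 1) (by omega) (m + 1)
  rw [if_pos rfl] at h2
  rw [h2] at h1
  have h3 : (4 : ℚ) ^ (m + 1) = 2 ^ (2 * (m + 1)) := by rw [pow_mul]; norm_num
  rw [sum_range_succ, h3, div_eq_iff (by positivity)]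
  have h4 : (0 : ℚ) < 2 ^ (2 * (m + 1)) := by positivity
  field_simp
  linarith

theorem odd_q : S (2 * (m + 1) + 1) (m + 1) (m + 1) (m + 2) + S (2 * (m + 1) + 1) (m + 1) m (m + 2) =
    (m + 1 + 1) * ((Kr (2 * (m + 1) + 1) (m + 1) (m + 1)) ^ 2 / 2 ^ (2 * (m + 1) + 1)) := by
  rw [S_add_a (by omega)]
  rw [show 2 * (m + 1) + 1 - (m + 1) = m + 1 + 1 from by omega, half_cd]
  push_cast
  ring

/-- the central quantity, odd order -/
theorem odd_main :
    S (2 * (m + 1) + 1) (m + 1) m (m + 2) *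
        (1 - 2 * S (2 * (m + 1) + 1) (m + 1) (m + 1) (m + 1)) +
      2 * (S (2 * (m + 1) + 1) (m + 1) m (m + 1) * S (2 * (m + 1) + 1) (m + 1) (m + 1) (m + 2)) =
    (1 - (Kr (2 * (m + 1)) (m + 1) (m + 1)) ^ 2 / 4 ^ (m + 1)) / 2 *
      ((m + 1 + 1) * ((Kr (2 * (m + 1) + 1) (m + 1) (m + 1)) ^ 2 / 2 ^ (2 * (m + 1) + 1))) := by
  have h1 := odd_eq m
  have h2 := odd_half m
  have h3 := odd_full m
  have h4 := odd_q m
  set A := S (2 * (m + 1) + 1) (m + 1) (m + 1) (m + 1)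
  set B := S (2 * (m + 1) + 1) (m + 1) m (m + 1)
  set D := S (2 * (m + 1) + 1) (m + 1) (m + 1) (m + 2)
  set E := S (2 * (m + 1) + 1) (m + 1) m (m + 2)
  set c2 := (Kr (2 * (m + 1)) (m + 1) (m + 1)) ^ 2 / 4 ^ (m + 1)
  set q := ((m : ℚ) + 1 + 1) * ((Kr (2 * (m + 1) + 1) (m + 1) (m + 1)) ^ 2 / 2 ^ (2 * (m + 1) + 1))
  have hA : A = (1 + c2) / 4 := by linarith
  have hB : B = (1 - c2) / 4 := by linarith
  have hD : D = (1 + c2) / 4 := by linarith
  have hE : E = q - (1 + c2) / 4 := by linarith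
  rw [hA, hB, hD, hE]
  ring

end odd

end Pool.Agent.NH72.Kn
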