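import Pool.Agent.NH72.Kn.Region
import Pool.Agent.NH72.Kn.Val
import Pool.Agent.Helper848.AztecDet

namespace Pool.Agent.NH72.Kn

open Finset Polynomial Pool.Agent.Helper848 Pool.Agent.Helper848.AztecDet

theorem K0_eq_Kf (m n : ℕ) (x ee : E n) (o oe : O n) (h1 : (ee.1 : ℕ) = m + 1)
    (h2 : (ee.2 : ℕ) = m + 1) (h3 : (oe.1 : ℕ) = m + 1) (h4 : (oe.2 : ℕ) = m + 1) :
    (if o = oe ∧ x = ee then (-1 : ℚ) else K0 n o x) = ((Kf m x.1 x.2 o.1 o.2 : ℤ) : ℚ) := by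
  have e1 : (o = oe ∧ x = ee) ↔ (((o.1 : ℕ) = m + 1 ∧ (o.2 : ℕ) = m + 1) ∧
      ((x.1 : ℕ) = m + 1 ∧ (x.2 : ℕ) = m + 1)) := by
    rw [Prod.ext_iff, Prod.ext_iff, Fin.ext_iff, Fin.ext_iff, Fin.ext_iff, Fin.ext_iff, h1, h2, h3, h4]
  simp only [e1]
  unfold K0 Kf
  rw [Matrix.of_apply]
  rcases x with ⟨⟨s, hs⟩, ⟨t, ht⟩⟩
  rcases o with ⟨⟨a, ha⟩, ⟨b, hb⟩⟩
  simp only
  split_ifs <;> first | omega | norm_num

/-- coefficients of the expansion of `X ^ c` -/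
noncomputable def gam (n c k : ℕ) : ℚ := Kr n (n - k) c / 2 ^ n

theorem gam_spec {n c : ℕ} (hc : c ≤ n) :
    ∑ k ∈ Finset.range (n + 1), C (gam n c k) * ((1 + X) ^ k * (1 - X) ^ (n - k) : ℚ[X]) = X ^ c := by
  have h := Hm_y hc
  unfold Hm at h
  rw [← Finset.sum_range_reflect] at h
  have h2 : C (2 ^ n) * ∑ k ∈ Finset.range (n + 1), C (gam n c k) *
      ((1 + X) ^ k * (1 - X) ^ (n - k) : ℚ[X]) = C (2 ^ n) * X ^ c := by
    rw [← h, Finset.mul_sum]
    refine Finset.sum_congr rfl fun k hk => ?_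
    rw [Finset.mem_range] at hk
    rw [show n + 1 - 1 - k = n - k from by omega, show n - (n - k) = k from by omega, ← mul_assoc,
      ← C_mul]
    unfold gam Kr
    rw [mul_div_cancel₀ _ (by positivity)]
    ring
  have h3 : (C (2 ^ n) : ℚ[X]) ≠ 0 := by
    rw [Ne, C_eq_zero]; positivity
  exact mul_left_cancel₀ h3 h2

theorem G_coeff {n m : ℕ} (hm : m < n) (a c : ℕ) :
    (G n (gam n c) (m + 1) m).coeff a = S n m a c := by
  unfold G
  rw [if_pos (by omega), show m + 1 - 1 - m = 0 from by omega, pow_zero, one_mul, finsetSum_coeff]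
  unfold S
  rw [Finset.sum_div]
  have h := Finset.sum_Ico_reflect (fun k => (C (gam n c k) *
    ((1 + X) ^ (k + m - (m + 1)) * (1 - X) ^ (n + (m + 1) - 1 - m - k)) : ℚ[X]).coeff a)
    0 (m := n - m) (n := n) (by omega)
  rw [show n + 1 - (n - m) = m + 1 from by omega, Nat.sub_zero] at h
  rw [← h, Finset.range_eq_Ico]
  refine Finset.sum_congr rfl fun j hj => ?_
  rw [Finset.mem_Ico] at hj
  rw [coeff_C_mul, gam, show n - (n - j) = j from by omega,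
    show n - j + m - (m + 1) = n - 1 - j from by omega,
    show n + (m + 1) - 1 - m - (n - j) = j from by omega]
  have : Kr (n - 1) a j = ((1 + X) ^ (n - 1 - j) * (1 - X) ^ j : ℚ[X]).coeff a := by
    unfold Kr y
    rw [mul_comm]
  rw [this]; ring

theorem card_ne {α : Type*} [Fintype α] [DecidableEq α] (a : α) :
    Fintype.card {x : α // x ≠ a} = Fintype.card α - 1 := by
  rw [Fintype.card_subtype_compl, Fintype.card_subtype_eq]

theorem assemble (m N : ℕ) (hn : 2 * (m + 1) ≤ N + 1)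
    (cE : E (N + 1) → ℤ × ℤ) (cO : O (N + 1) → ℤ × ℤ) (hcE : Function.Injective cE)
    (hcO : Function.Injective cO)
    (hfR : ∀ p, (∃ x : E (N + 1), ¬ ((x.1 : ℕ) = m + 1 ∧ (x.2 : ℕ) = m) ∧ cE x = p) ↔
      p ∈ region (N + 1) ∧ Even (p.1 + p.2 + (((N + 1 : ℕ)) : ℤ)))
    (hgR : ∀ p, (∃ o : O (N + 1), ¬ ((o.1 : ℕ) = m + 1 ∧ (o.2 : ℕ) = m + 2) ∧ cO o = p) ↔
      p ∈ region (N + 1) ∧ ¬ Even (p.1 + p.2 + (((N + 1 : ℕ)) : ℤ)))
    (pO qE : ℕ → ℕ → ℕ)
    (hent : ∀ (x : E (N + 1)) (o : O (N + 1)), ¬ ((x.1 : ℕ) = m + 1 ∧ (x.2 : ℕ) = m) →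
      ¬ ((o.1 : ℕ) = m + 1 ∧ (o.2 : ℕ) = m + 2) →
      (-1) ^ (pO o.1 o.2 + qE x.1 x.2) * kast (region (N + 1)) (cO o) (cE x) =
        Kf m x.1 x.2 o.1 o.2) :
    (numTilings (region (N + 1)) : ℚ) = 2 ^ ((N + 1) * (N + 2) / 2) *
      |S (N + 1) (m + 1) m (m + 2) * (1 - 2 * S (N + 1) (m + 1) (m + 1) (m + 1)) +
        2 * (S (N + 1) (m + 1) m (m + 1) * S (N + 1) (m + 1) (m + 1) (m + 2))| := by
  let e2 : E (N + 1) := (⟨m + 1, by omega⟩, ⟨m, by omega⟩)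
  let ee : E (N + 1) := (⟨m + 1, by omega⟩, ⟨m + 1, by omega⟩)
  let o1 : O (N + 1) := (⟨m + 1, by omega⟩, ⟨m + 2, by omega⟩)
  let oe : O (N + 1) := (⟨m + 1, by omega⟩, ⟨m + 1, by omega⟩)
  have he2 : ∀ x : E (N + 1), x = e2 ↔ ((x.1 : ℕ) = m + 1 ∧ (x.2 : ℕ) = m) := by
    intro x
    rw [Prod.ext_iff, Fin.ext_iff, Fin.ext_iff]
  have ho1 : ∀ o : O (N + 1), o = o1 ↔ ((o.1 : ℕ) = m + 1 ∧ (o.2 : ℕ) = m + 2) := by
    intro x
    rw [Prod.ext_iff, Fin.ext_iff, Fin.ext_iff]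
  have hne : ee ≠ e2 := by
    rw [Ne, he2]; simp only [ee]; omega
  have hcard : Fintype.card {x : E (N + 1) // x ≠ e2} = Fintype.card {o : O (N + 1) // o ≠ o1} := by
    rw [card_ne, card_ne, Fintype.card_prod, Fintype.card_prod, mul_comm]
  let φ : {x : E (N + 1) // x ≠ e2} ≃ {o : O (N + 1) // o ≠ o1} := Fintype.equivOfCardEq hcard
  let H1 : E (N + 1) → ℚ := fun x => (G (N + 1) (gam (N + 1) (m + 2)) (m + 2) x.1).coeff x.2
  let H2 : E (N + 1) → ℚ := fun x => (G (N + 1) (gam (N + 1) (m + 1)) (m + 2) x.1).coeff x.2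
  have hH1 : ∀ o : O (N + 1), ∑ x, K0 (N + 1) o x * H1 x = if o = o1 then 1 else 0 := by
    intro o
    have := K0_G (N + 1) (gam (N + 1) (m + 2)) (m + 2) (m + 2) (by omega) (by omega)
      (gam_spec (by omega)) o
    rw [this]
    have e : ((o.1 : ℕ) + 1 = m + 2 ∧ (o.2 : ℕ) = m + 2) ↔ o = o1 := by
      rw [ho1]; omega
    simp only [e]
  have hH2 : ∀ o : O (N + 1), ∑ x, K0 (N + 1) o x * H2 x = if o = oe then 1 else 0 := by
    intro o
    have := K0_G (N + 1) (gam (N + 1) (m + 1)) (m + 2) (m + 1) (by omega) (by omega)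
      (gam_spec (by omega)) o
    rw [this]
    have e : ((o.1 : ℕ) + 1 = m + 2 ∧ (o.2 : ℕ) = m + 1) ↔ o = oe := by
      rw [Prod.ext_iff, Fin.ext_iff, Fin.ext_iff]
      simp only [oe]; omega
    simp only [e]
  have hκ : K0 (N + 1) oe ee = 1 := by
    unfold K0
    simp [oe, ee]
  obtain ⟨e, he⟩ := abs_det_minor (K0 (N + 1)) H1 H2 o1 oe e2 ee hne hH1 hH2 hκ φ
  rw [abs_det_K0] at he
  have v1 : H1 e2 = S (N + 1) (m + 1) m (m + 2) := G_coeff (by omega) _ _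
  have v2 : H1 ee = S (N + 1) (m + 1) (m + 1) (m + 2) := G_coeff (by omega) _ _
  have v3 : H2 e2 = S (N + 1) (m + 1) m (m + 1) := G_coeff (by omega) _ _
  have v4 : H2 ee = S (N + 1) (m + 1) (m + 1) (m + 1) := G_coeff (by omega) _ _
  rw [v1, v2, v3, v4] at he
  rw [← he]
  let M : Matrix {x : E (N + 1) // x ≠ e2} {x : E (N + 1) // x ≠ e2} ℤ :=
    Matrix.of fun i j => Kf m j.1.1 j.1.2 (φ i).1.1 (φ i).1.2
  have hT := numTilings_eq (((N + 1 : ℕ)) : ℤ) (region (N + 1)) (fun i : {x : E (N + 1) // x ≠ e2} => cE i.1)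
    (fun i => cO (φ i).1) (hcE.comp Subtype.val_injective)
    (hcO.comp (Subtype.val_injective.comp φ.injective))
    (by
      intro p
      rw [← hfR p]
      constructor
      · rintro ⟨i, hi⟩
        exact ⟨i.1, fun h => i.2 ((he2 _).mpr h), hi⟩
      · rintro ⟨x, hx, hp⟩
        exact ⟨⟨x, fun h => hx ((he2 _).mp h)⟩, hp⟩)
    (by
      intro p
      rw [← hgR p]
      constructor
      · rintro ⟨i, hi⟩
        exact ⟨(φ i).1, fun h => (φ i).2 ((ho1 _).mpr h), hi⟩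
      · rintro ⟨x, hx, hp⟩
        refine ⟨φ.symm ⟨x, fun h => hx ((ho1 _).mp h)⟩, ?_⟩
        simpa using hp)
    (fun i => (-1) ^ (pO (φ i).1.1 (φ i).1.2)) (fun j => (-1) ^ (qE j.1.1 j.1.2)) M
    (by
      intro i j
      have := hent j.1 (φ i).1 (fun h => j.2 ((he2 _).mpr h)) (fun h => (φ i).2 ((ho1 _).mpr h))
      simp only [M, Matrix.of_apply]
      rw [← this, pow_add]
      push_cast
      ring)
  rw [hT]
  have hcast : ((M.det.natAbs : ℕ) : ℚ) = |(M.map (Int.castRingHom ℚ)).det| := by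
    have h1 : (M.map (Int.castRingHom ℚ)).det = ((M.det : ℤ) : ℚ) := by
      have := RingHom.map_det (Int.castRingHom ℚ) M
      simpa using this.symm
    rw [h1, Nat.cast_natAbs, Int.cast_abs]
  rw [hcast]
  congr 2
  ext i j
  rw [Matrix.map_apply, Matrix.of_apply, K0_eq_Kf m (N + 1) j.1 ee (φ i).1 oe rfl rfl rfl rfl]
  rfl

theorem tilings_even (m : ℕ) :
    (numTilings (region (2 * (m + 1))) : ℚ) = 2 ^ ((2 * (m + 1)) * (2 * (m + 1) + 1) / 2) *
      ((1 + (Kr (2 * (m + 1)) (m + 1) (m + 1)) ^ 2 / 4 ^ (m + 1)) / 2 *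
        ((m + 1) * ((Kr (2 * m + 1) m m) ^ 2 / 2 ^ (2 * m + 1)))) := by
  have h := assemble m (2 * m + 1) (by omega)
    (fun x => ((x.2 : ℤ) - x.1, (x.2 : ℤ) + x.1 - ((2 * m + 1 + 1 : ℕ) : ℤ)))
    (fun o => ((o.2 : ℤ) - o.1 - 1, (o.1 : ℤ) + o.2 - ((2 * m + 1 + 1 : ℕ) : ℤ)))
    (by
      intro x y h
      simp only [Prod.mk.injEq] at h
      ext <;> omega)
    (by
      intro x y h
      simp only [Prod.mk.injEq] at h
      ext <;> omega)
    (by
      intro p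
      rw [mem_region, Int.even_iff]
      constructor
      · rintro ⟨x, hx, rfl⟩
        have h1 := x.1.2
        have h2 := x.2.2
        simp only
        omega
      · rintro ⟨h1, h2⟩
        refine ⟨(⟨((p.2 - p.1 + ((2 * m + 1 + 1 : ℕ) : ℤ)) / 2).toNat, by omega⟩,
          ⟨((p.1 + p.2 + ((2 * m + 1 + 1 : ℕ) : ℤ)) / 2).toNat, by omega⟩), ?_, ?_⟩
        · simp only; omega
        · ext <;> simp only <;> omega)
    (by
      intro p
      rw [mem_region, Int.even_iff]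
      constructor
      · rintro ⟨x, hx, rfl⟩
        have h1 := x.1.2
        have h2 := x.2.2
        simp only
        omega
      · rintro ⟨h1, h2⟩
        refine ⟨(⟨((p.2 - p.1 - 1 + ((2 * m + 1 + 1 : ℕ) : ℤ)) / 2).toNat, by omega⟩,
          ⟨((p.1 + p.2 + 1 + ((2 * m + 1 + 1 : ℕ) : ℤ)) / 2).toNat, by omega⟩), ?_, ?_⟩
        · simp only; omega
        · ext <;> simp only <;> omega)
    (pO0 m) (qE0 m)
    (by
      intro x o hx ho
      exact entry0 m (2 * m + 1 + 1) x.1 x.2 o.1 o.2 (by omega) (by omega) (by omega) (by omega)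
        (by omega) hx ho)
  have h2 := even_main m
  rw [show 2 * (m + 1) = 2 * m + 1 + 1 from by ring] at h2 ⊢
  rw [h2] at h
  rw [h, abs_of_nonneg (by positivity)]

theorem tilings_odd (m : ℕ)
    (hc : (Kr (2 * (m + 1)) (m + 1) (m + 1)) ^ 2 / 4 ^ (m + 1) ≤ 1) :
    (numTilings (region (2 * (m + 1) + 1)) : ℚ) =
      2 ^ ((2 * (m + 1) + 1) * (2 * (m + 1) + 1 + 1) / 2) *
      ((1 - (Kr (2 * (m + 1)) (m + 1) (m + 1)) ^ 2 / 4 ^ (m + 1)) / 2 *
      ((m + 1 + 1) * ((Kr (2 * (m + 1) + 1) (m + 1) (m + 1)) ^ 2 / 2 ^ (2 * (m + 1) + 1)))) := by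
  have h := assemble m (2 * (m + 1)) (by omega)
    (fun x => ((x.1 : ℤ) - x.2 - 1, ((2 * (m + 1) + 1 : ℕ) : ℤ) - 1 - x.1 - x.2))
    (fun o => ((o.1 : ℤ) - o.2, ((2 * (m + 1) + 1 : ℕ) : ℤ) - 1 - o.1 - o.2))
    (by
      intro x y h
      simp only [Prod.mk.injEq] at h
      ext <;> omega)
    (by
      intro x y h
      simp only [Prod.mk.injEq] at h
      ext <;> omega)
    (by
      intro p
      rw [mem_region, Int.even_iff]
      constructor
      · rintro ⟨x, hx, rfl⟩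
        have h1 := x.1.2
        have h2 := x.2.2
        simp only
        omega
      · rintro ⟨h1, h2⟩
        refine ⟨(⟨((((2 * (m + 1) + 1 : ℕ) : ℤ) - (p.2 - p.1)) / 2).toNat, by omega⟩,
          ⟨((((2 * (m + 1) + 1 : ℕ) : ℤ) - 1 - (p.1 + p.2 + 1)) / 2).toNat, by omega⟩), ?_, ?_⟩
        · simp only; omega
        · ext <;> simp only <;> omega)
    (by
      intro p
      rw [mem_region, Int.even_iff]
      constructor
      · rintro ⟨x, hx, rfl⟩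
        have h1 := x.1.2
        have h2 := x.2.2
        simp only
        omega
      · rintro ⟨h1, h2⟩
        refine ⟨(⟨((((2 * (m + 1) + 1 : ℕ) : ℤ) - 1 - (p.2 - p.1)) / 2).toNat, by omega⟩,
          ⟨((((2 * (m + 1) + 1 : ℕ) : ℤ) - (p.1 + p.2 + 1)) / 2).toNat, by omega⟩), ?_, ?_⟩
        · simp only; omega
        · ext <;> simp only <;> omega)
    (pO1 m) (qE1 m)
    (by
      intro x o hx ho
      exact entry1 m (2 * (m + 1) + 1) x.1 x.2 o.1 o.2 (by omega) (by omega) (by omega) (by omega)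
        (by omega) hx ho)
  rw [odd_main m] at h
  have hc2 : 0 ≤ 1 - (Kr (2 * (m + 1)) (m + 1) (m + 1)) ^ 2 / 4 ^ (m + 1) := by linarith
  rw [h, abs_of_nonneg (by positivity)]

end Pool.Agent.NH72.Kn
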