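import Pool.Agent.Helper848.Kast

namespace Pool.Agent.NH72.Kn

open Finset Pool.Agent.Helper848

/-- The Aztec diamond of order `n`: the cell `(i, j)` stands for the unit square with centre
`(i + 1/2, j + 1/2)`. -/
noncomputable def aztec (n : ℕ) : Finset (ℤ × ℤ) :=
  ((Finset.Icc (-(n : ℤ)) (n - 1)) ×ˢ (Finset.Icc (-(n : ℤ)) (n - 1))).filter
    fun p => |2 * p.1 + 1| + |2 * p.2 + 1| ≤ 2 * n

/-- the two removed cells -/
def holes : Finset (ℤ × ℤ) := {(-1, -1), (0, 1)}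

/-- The region `D_n`. -/
noncomputable def region (n : ℕ) : Finset (ℤ × ℤ) := aztec n \ holes

theorem mem_aztec (n : ℕ) (p : ℤ × ℤ) : p ∈ aztec n ↔
    (-(n : ℤ) ≤ p.1 + p.2 + 1 ∧ p.1 + p.2 + 1 ≤ n) ∧ (-(n : ℤ) ≤ p.2 - p.1 ∧ p.2 - p.1 ≤ n) := by
  unfold aztec
  rw [Finset.mem_filter, Finset.mem_product, Finset.mem_Icc, Finset.mem_Icc]
  rcases abs_cases (2 * p.1 + 1) with ⟨h1, h2⟩ | ⟨h1, h2⟩ <;>
  rcases abs_cases (2 * p.2 + 1) with ⟨h3, h4⟩ | ⟨h3, h4⟩ <;>
  · rw [h1, h3]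
    constructor
    · rintro ⟨_, h⟩; omega
    · rintro ⟨_, _⟩; omega

theorem mem_region (n : ℕ) (p : ℤ × ℤ) : p ∈ region n ↔
    ((-(n : ℤ) ≤ p.1 + p.2 + 1 ∧ p.1 + p.2 + 1 ≤ n) ∧ (-(n : ℤ) ≤ p.2 - p.1 ∧ p.2 - p.1 ≤ n)) ∧
      ¬ (p.1 = -1 ∧ p.2 = -1) ∧ ¬ (p.1 = 0 ∧ p.2 = 1) := by
  unfold region holes
  rw [Finset.mem_sdiff, mem_aztec, Finset.mem_insert, Finset.mem_singleton, Prod.ext_iff,
    Prod.ext_iff]
  tauto

theorem above_aztec (n : ℕ) (p : ℤ × ℤ) (hp : p ∈ aztec n) :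
    above (aztec n) p = (((n : ℤ) - (p.1 + p.2 + 1)) / 2).toNat := by
  unfold above
  have h : (aztec n).filter (fun q => q.2 - q.1 = p.2 - p.1 ∧ p.1 < q.1) =
      (Finset.Icc (1 : ℤ) (((n : ℤ) - (p.1 + p.2 + 1)) / 2)).image
        (fun k => (p.1 + k, p.2 + k)) := by
    ext q
    rw [Finset.mem_filter, Finset.mem_image, mem_aztec]
    rw [mem_aztec] at hp
    constructor
    · rintro ⟨h1, h2, h3⟩
      refine ⟨q.1 - p.1, ?_, ?_⟩
      · rw [Finset.mem_Icc]; omega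
      · ext <;> simp
        omega
    · rintro ⟨k, hk, rfl⟩
      rw [Finset.mem_Icc] at hk
      simp only
      omega
  rw [h, Finset.card_image_of_injective, Int.card_Icc]
  · congr 1; omega
  · intro a b hab
    simp only [Prod.mk.injEq] at hab
    omega

theorem below_aztec (n : ℕ) (p : ℤ × ℤ) (hp : p ∈ aztec n) :
    below (aztec n) p = (((n : ℤ) + (p.1 + p.2 + 1)) / 2).toNat := by
  unfold below
  have h : (aztec n).filter (fun q => q.2 - q.1 = p.2 - p.1 ∧ q.1 < p.1) =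
      (Finset.Icc (1 : ℤ) (((n : ℤ) + (p.1 + p.2 + 1)) / 2)).image
        (fun k => (p.1 - k, p.2 - k)) := by
    ext q
    rw [Finset.mem_filter, Finset.mem_image, mem_aztec]
    rw [mem_aztec] at hp
    constructor
    · rintro ⟨h1, h2, h3⟩
      refine ⟨p.1 - q.1, ?_, ?_⟩
      · rw [Finset.mem_Icc]; omega
      · ext <;> simp
        omega
    · rintro ⟨k, hk, rfl⟩
      rw [Finset.mem_Icc] at hk
      simp only
      omega
  rw [h, Finset.card_image_of_injective, Int.card_Icc]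
  · congr 1; omega
  · intro a b hab
    simp only [Prod.mk.injEq] at hab
    omega

theorem holes_subset (n : ℕ) (hn : 2 ≤ n) : holes ⊆ aztec n := by
  intro p hp
  unfold holes at hp
  rw [Finset.mem_insert, Finset.mem_singleton] at hp
  rw [mem_aztec]
  rcases hp with rfl | rfl <;> simp only <;> omega

theorem above_region (n : ℕ) (hn : 2 ≤ n) (p : ℤ × ℤ) :
    above (aztec n) p = above (region n) p + ((if (-1 - -1 = p.2 - p.1 ∧ p.1 < -1) then 1 else 0) +
      (if (1 - 0 = p.2 - p.1 ∧ p.1 < 0) then 1 else 0)) := by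
  unfold above region
  rw [Finset.card_filter, Finset.card_filter, ← Finset.sum_sdiff (holes_subset n hn)]
  rw [holes, Finset.sum_pair (by decide)]

theorem below_region (n : ℕ) (hn : 2 ≤ n) (p : ℤ × ℤ) :
    below (aztec n) p = below (region n) p + ((if (-1 - -1 = p.2 - p.1 ∧ -1 < p.1) then 1 else 0) +
      (if (1 - 0 = p.2 - p.1 ∧ 0 < p.1) then 1 else 0)) := by
  unfold below region
  rw [Finset.card_filter, Finset.card_filter, ← Finset.sum_sdiff (holes_subset n hn)]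
  rw [holes, Finset.sum_pair (by decide)]

theorem kast_zero {R : Finset (ℤ × ℤ)} {b w : ℤ × ℤ} (h : ¬ Adj w b) : kast R b w = 0 := by
  unfold kast; rw [if_neg h]

theorem kast_upp {R : Finset (ℤ × ℤ)} {b w : ℤ × ℤ} (h : Adj w b) (h2 : b.2 - b.1 = w.2 - w.1 + 1) :
    kast R b w = (-1) ^ (above R w + below R b) := by
  unfold kast; rw [if_pos h, if_pos h2]

theorem kast_low {R : Finset (ℤ × ℤ)} {b w : ℤ × ℤ} (h : Adj w b)
    (h2 : ¬ b.2 - b.1 = w.2 - w.1 + 1) : kast R b w = 1 := by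
  unfold kast; rw [if_pos h, if_neg h2]

/-- the matrix with one changed sign, in natural coordinates -/
def Kf (m s t a b : ℕ) : ℤ :=
  if (a = m + 1 ∧ b = m + 1) ∧ (s = m + 1 ∧ t = m + 1) then -1
  else if s = a + 1 ∧ t = b then 1
  else if s = a + 1 ∧ t + 1 = b then -1
  else if s = a ∧ (t = b ∨ t + 1 = b) then 1 else 0

/-- gauge exponents -/
def pO0 (m a b : ℕ) : ℕ := b + a + 1 + (if a < m + 1 then 1 else 0)
def qE0 (m s t : ℕ) : ℕ := t + s + (if s ≤ m + 1 then 1 else 0)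
def pO1 (m a b : ℕ) : ℕ := a + (if a = m + 1 ∧ b ≤ m + 1 then 1 else 0) +
  (if a < m + 1 then 1 else 0)
def qE1 (m s t : ℕ) : ℕ := s + (if s = m + 1 ∧ m + 1 ≤ t then 1 else 0) +
  (if s ≤ m + 1 then 1 else 0)

theorem np_even {a : ℕ} (h : a % 2 = 0) : (-1 : ℤ) ^ a = 1 := (Nat.even_iff.mpr h).neg_one_pow
theorem np_odd {a : ℕ} (h : a % 2 = 1) : (-1 : ℤ) ^ a = -1 := (Nat.odd_iff.mpr h).neg_one_pow

theorem Kf_up1 {m s t a b : ℕ} (h : s = a + 1 ∧ t = b) : Kf m s t a b = 1 := by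
  unfold Kf; rw [if_neg (by omega), if_pos h]

theorem Kf_up2 {m s t a b : ℕ} (h : s = a + 1 ∧ t + 1 = b) : Kf m s t a b = -1 := by
  unfold Kf; rw [if_neg (by omega), if_neg (by omega), if_pos h]

theorem Kf_flip {m s t a b : ℕ} (h : (a = m + 1 ∧ b = m + 1) ∧ (s = m + 1 ∧ t = m + 1)) :
    Kf m s t a b = -1 := by
  unfold Kf; rw [if_pos h]

theorem Kf_low {m s t a b : ℕ} (h : ¬ ((a = m + 1 ∧ b = m + 1) ∧ (s = m + 1 ∧ t = m + 1)))
    (h2 : s = a ∧ (t = b ∨ t + 1 = b)) : Kf m s t a b = 1 := by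
  unfold Kf; rw [if_neg h, if_neg (by omega), if_neg (by omega), if_pos h2]

theorem Kf_zero {m s t a b : ℕ} (h1 : ¬ (s = a + 1 ∧ (t = b ∨ t + 1 = b)))
    (h2 : ¬ (s = a ∧ (t = b ∨ t + 1 = b))) : Kf m s t a b = 0 := by
  unfold Kf; rw [if_neg (by omega), if_neg (by omega), if_neg (by omega), if_neg (by omega)]

theorem entry0 (m n s t a b : ℕ) (hn : n = 2 * (m + 1)) (hs : s ≤ n) (ht : t < n) (ha : a < n)
    (hb : b ≤ n)
    (hx : ¬ (s = m + 1 ∧ t = m)) (ho : ¬ (a = m + 1 ∧ b = m + 2)) :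
    (-1) ^ (pO0 m a b + qE0 m s t) * kast (region n) ((b : ℤ) - a - 1, (a : ℤ) + b - n)
      ((t : ℤ) - s, (t : ℤ) + s - n) = Kf m s t a b := by
  have hEmem : ((t : ℤ) - s, (t : ℤ) + s - n) ∈ aztec n := by
    rw [mem_aztec]; simp only; omega
  have hOmem : ((b : ℤ) - a - 1, (a : ℤ) + b - n) ∈ aztec n := by
    rw [mem_aztec]; simp only; omega
  have hA := above_region n (by omega) ((t : ℤ) - s, (t : ℤ) + s - n)
  have hB := below_region n (by omega) ((b : ℤ) - a - 1, (a : ℤ) + b - n)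
  rw [above_aztec n _ hEmem] at hA
  rw [below_aztec n _ hOmem] at hB
  simp only at hA hB
  unfold pO0 qE0
  by_cases h1 : s = a + 1 ∧ (t = b ∨ t + 1 = b)
  · rw [kast_low (by unfold Adj; simp only; omega) (by simp only; omega), mul_one]
    rcases h1 with ⟨rfl, rfl | rfl⟩
    · rw [Kf_up1 (by omega)]
      exact np_even (by split_ifs <;> omega)
    · rw [Kf_up2 (by omega)]
      exact np_odd (by split_ifs <;> omega)
  · by_cases h2 : s = a ∧ (t = b ∨ t + 1 = b)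
    · rw [kast_upp (by unfold Adj; simp only; omega) (by simp only; omega), ← pow_add]
      generalize above (region n) ((t : ℤ) - s, (t : ℤ) + s - n) = u at *
      generalize below (region n) ((b : ℤ) - a - 1, (a : ℤ) + b - n) = v at *
      by_cases h5 : (a = m + 1 ∧ b = m + 1) ∧ (s = m + 1 ∧ t = m + 1)
      · rw [Kf_flip h5]
        exact np_odd (by split_ifs at hA hB ⊢ <;> omega)
      · rw [Kf_low h5 h2]
        refine np_even ?_
        rcases h2 with ⟨rfl, rfl | rfl⟩ <;>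
          split_ifs at hA hB ⊢ <;> omega
    · rw [kast_zero (by unfold Adj; simp only; omega), mul_zero, Kf_zero h1 h2]

theorem entry1 (m n s t a b : ℕ) (hn : n = 2 * (m + 1) + 1) (hs : s ≤ n) (ht : t < n) (ha : a < n)
    (hb : b ≤ n)
    (hx : ¬ (s = m + 1 ∧ t = m)) (ho : ¬ (a = m + 1 ∧ b = m + 2)) :
    (-1) ^ (pO1 m a b + qE1 m s t) * kast (region n) ((a : ℤ) - b, (n : ℤ) - 1 - a - b)
      ((s : ℤ) - t - 1, (n : ℤ) - 1 - s - t) = Kf m s t a b := by
  have hEmem : ((s : ℤ) - t - 1, (n : ℤ) - 1 - s - t) ∈ aztec n := by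
    rw [mem_aztec]; simp only; omega
  have hOmem : ((a : ℤ) - b, (n : ℤ) - 1 - a - b) ∈ aztec n := by
    rw [mem_aztec]; simp only; omega
  have hA := above_region n (by omega) ((s : ℤ) - t - 1, (n : ℤ) - 1 - s - t)
  have hB := below_region n (by omega) ((a : ℤ) - b, (n : ℤ) - 1 - a - b)
  rw [above_aztec n _ hEmem] at hA
  rw [below_aztec n _ hOmem] at hB
  simp only at hA hB
  unfold pO1 qE1
  by_cases h1 : s = a + 1 ∧ (t = b ∨ t + 1 = b)
  · rw [kast_upp (by unfold Adj; simp only; omega) (by simp only; omega), ← pow_add]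
    generalize above (region n) ((s : ℤ) - t - 1, (n : ℤ) - 1 - s - t) = u at *
    generalize below (region n) ((a : ℤ) - b, (n : ℤ) - 1 - a - b) = v at *
    rcases h1 with ⟨rfl, rfl | rfl⟩
    · rw [Kf_up1 (by omega)]
      exact np_even (by split_ifs at hA hB ⊢ <;> omega)
    · rw [Kf_up2 (by omega)]
      exact np_odd (by split_ifs at hA hB ⊢ <;> omega)
  · by_cases h2 : s = a ∧ (t = b ∨ t + 1 = b)
    · rw [kast_low (by unfold Adj; simp only; omega) (by simp only; omega), mul_one]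
      by_cases h5 : (a = m + 1 ∧ b = m + 1) ∧ (s = m + 1 ∧ t = m + 1)
      · rw [Kf_flip h5]
        exact np_odd (by split_ifs <;> omega)
      · rw [Kf_low h5 h2]
        refine np_even ?_
        rcases h2 with ⟨rfl, rfl | rfl⟩ <;>
          split_ifs <;> omega
    · rw [kast_zero (by unfold Adj; simp only; omega), mul_zero, Kf_zero h1 h2]

end Pool.Agent.NH72.Kn
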